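import Mathlib
import Pool.Agent.H8.Bare

namespace Pool.Agent.Results.MP_ce2de7_lc.NoFam

open Pool.Agent.H8.Card Cardinal

theorem result : (∀ κ : Cardinal.{0}, ℵ₀ < κ.ord.cof → κ < sNum → ¬ ∃ I, Barely κ I) ∧
    (ℵ₁ < sNum → ¬ ∃ I, Barely.{0} ℵ₁ I) :=
  ⟨fun _ => no_barely_s, no_barely_s (by
    rw [isRegular_aleph_one.cof_ord]; exact aleph0_lt_aleph_one)⟩

end Pool.Agent.Results.MP_ce2de7_lc.NoFam
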